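import Mathlib
import Pool.Agent.V11298.OntologyModal

/-!
The propositional ontology `L1` embeds in `S4.2`.
-/

namespace Pool.Agent.Results.MP_c90ce4_lc.EmbedsInS42

open Pool.Agent.V11298.OntologyModal

/-- There is a modal formula in two variables whose translation is sound and faithful for
`S4.2`, for every injective assignment of propositional variables to name variables. -/
theorem result : ∃ χ : MForm (Fin 2), ∀ p : ℕ → ℕ, Function.Injective p →
    ∀ φ : LForm, L1 φ ↔ Prov AxS42 (translate χ p φ) :=
  ⟨chi, embeds valid_S42⟩

end Pool.Agent.Results.MP_c90ce4_lc.EmbedsInS42
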